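import Pool.Agent.Q185.NP.Stm

/-!
# Project NP, C1: a rational basis
-/

set_option autoImplicit false
set_option linter.unusedVariables false
set_option linter.unusedSectionVars false

namespace Pool.Agent.Q182.NP

open Q70.Nil Topology Filter Set Pool.Agent.Q185.NP
open scoped commutatorElement

section

variable {G : Type} [Group G] [TopologicalSpace G] [IsTopologicalGroup G]

instance L_normal (i : ℕ) : (L G i).Normal := ⟨fun _ h g => L_conj h g⟩

instance Lc_normal (i : ℕ) : (Lc G i).Normal := Subgroup.is_normal_topologicalClosure _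

instance Lc_closed (i : ℕ) : IsClosed ((Lc G i : Subgroup G) : Set G) :=
  Subgroup.isClosed_topologicalClosure _

theorem Lc_comm (x y : G) : (QuotientGroup.mk x : G ⧸ Lc G 1) * QuotientGroup.mk y =
    QuotientGroup.mk y * QuotientGroup.mk x := by
  rw [← QuotientGroup.mk_mul, ← QuotientGroup.mk_mul, QuotientGroup.eq]
  have h1 : (x * y)⁻¹ * (y * x) = ⁅y⁻¹, x⁻¹⁆ := by
    rw [commutatorElement_def]
    group
  rw [h1]
  exact Subgroup.le_topologicalClosure _ (comm_mem (n := 0) (L_zero_mem _) _)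

noncomputable instance instQ : CommGroup (G ⧸ Lc G 1) :=
  { (inferInstance : Group (G ⧸ Lc G 1)) with
    mul_comm := by
      intro x y
      obtain ⟨x, rfl⟩ := QuotientGroup.mk_surjective x
      obtain ⟨y, rfl⟩ := QuotientGroup.mk_surjective y
      exact Lc_comm x y }

/-- the projection -/
def pr (x : G) : G ⧸ Lc G 1 := QuotientGroup.mk x

theorem pr_mul (x y : G) : pr (x * y) = pr x * pr y := rfl
theorem pr_one : pr (1 : G) = 1 := rfl
theorem pr_inv (x : G) : pr x⁻¹ = (pr x)⁻¹ := rfl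

theorem pr_zpow (x : G) (m : ℤ) : pr (x ^ m) = pr x ^ m := QuotientGroup.mk_zpow _ x m

theorem pr_pow (x : G) (m : ℕ) : pr (x ^ m) = pr x ^ m := QuotientGroup.mk_pow _ x m

theorem pr_eq {x y : G} : pr x = pr y ↔ x⁻¹ * y ∈ Lc G 1 := QuotientGroup.eq

theorem pr_cont : Continuous (pr : G → G ⧸ Lc G 1) := continuous_quotient_mk'

variable {n : ℕ} {e : (Fin n → ℝ) → G}

theorem e_zero (he : ExD n e) : e 0 = 1 := by
  have h := he.add 0 0 0
  simp only [add_zero, smul_zero] at h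
  exact mul_left_cancel (a := e 0) (by rw [mul_one]; exact h.symm)

theorem e_pow (he : ExD n e) (v : Fin n → ℝ) (k : ℕ) : e ((k : ℝ) • v) = e v ^ k := by
  induction k with
  | zero => simp [e_zero he]
  | succ k ih =>
    have h := he.add v k 1
    rw [one_smul, ih] at h
    rw [Nat.cast_succ, h, pow_succ]

/-- (1) additivity modulo the closure of the commutator subgroup -/
theorem pr_add (he : ExD n e) (v w : Fin n → ℝ) : pr (e (v + w)) = pr (e v) * pr (e w) := by
  have h1 := (pr_cont.tendsto _).comp (he.trotter v w)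
  have h2 : (pr ∘ fun m : ℕ => (e (((2 : ℝ) ^ m)⁻¹ • v) * e (((2 : ℝ) ^ m)⁻¹ • w)) ^ (2 ^ m)) =
      fun _ => pr (e v) * pr (e w) := by
    funext m
    have h3 : ∀ u : Fin n → ℝ, e u = e (((2 : ℝ) ^ m)⁻¹ • u) ^ (2 ^ m) := by
      intro u
      rw [← e_pow he]
      congr 1
      rw [smul_smul]
      push_cast
      rw [mul_inv_cancel₀ (by positivity), one_smul]
    show pr ((e (((2 : ℝ) ^ m)⁻¹ • v) * e (((2 : ℝ) ^ m)⁻¹ • w)) ^ (2 ^ m)) = _
    rw [pr_pow, pr_mul, mul_pow, ← pr_pow, ← pr_pow, ← h3, ← h3]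
  rw [h2] at h1
  exact tendsto_nhds_unique h1 tendsto_const_nhds |>.symm ▸ rfl

theorem pr_e_zero (he : ExD n e) : pr (e 0) = 1 := by rw [e_zero he, pr_one]

theorem pr_e_neg (he : ExD n e) (v : Fin n → ℝ) : pr (e (-v)) = (pr (e v))⁻¹ := by
  have h := pr_add he (-v) v
  rw [neg_add_cancel, pr_e_zero he] at h
  exact (inv_eq_of_mul_eq_one_left h.symm).symm

theorem pr_e_sub (he : ExD n e) (v w : Fin n → ℝ) : pr (e (v - w)) = pr (e v) / pr (e w) := by
  rw [sub_eq_add_neg, pr_add he, pr_e_neg he, div_eq_mul_inv]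

/-- the subgroup of the points congruent to a point of the image of `e` -/
def AA (he : ExD n e) : Subgroup G where
  carrier := {x | ∃ v, pr x = pr (e v)}
  mul_mem' := by
    rintro x y ⟨v, hv⟩ ⟨w, hw⟩
    exact ⟨v + w, by rw [pr_mul, hv, hw, pr_add he]⟩
  one_mem' := ⟨0, by rw [pr_e_zero he, pr_one]⟩
  inv_mem' := by
    rintro x ⟨v, hv⟩
    exact ⟨-v, by rw [pr_inv, hv, pr_e_neg he]⟩

theorem AA_open (he : ExD n e) : IsOpen (AA he : Set G) := by
  refine Subgroup.isOpen_of_mem_nhds _ (g := 1) ?_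
  refine mem_of_superset (he.nhds univ univ_mem) ?_
  rintro _ ⟨v, -, rfl⟩
  exact ⟨v, rfl⟩

theorem NN_le (he : ExD n e) : NN G ≤ AA he := by
  rintro y ⟨γ, hγ, hγ0, hγ1⟩
  have h1 : IsClopen (γ ⁻¹' (AA he : Set G)) :=
    ⟨(Subgroup.isClosed_of_isOpen _ (AA_open he)).preimage hγ, (AA_open he).preimage hγ⟩
  have h2 : γ ⁻¹' (AA he : Set G) = univ := by
    refine h1.eq_univ ⟨0, ?_⟩
    show γ 0 ∈ AA he
    rw [hγ0]
    exact one_mem _
  have h3 : (1 : unitInterval) ∈ γ ⁻¹' (AA he : Set G) := by rw [h2]; trivial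
  have h4 : γ 1 ∈ AA he := h3
  rwa [hγ1] at h4

theorem rep (he : ExD n e) {g : G} (hg : ∀ x : G, ∃ y ∈ NN G, ∃ k : ℤ, x = y * g ^ k) (x : G) :
    ∃ (v : Fin n → ℝ) (k : ℤ), pr x = pr (e v) * pr g ^ k := by
  obtain ⟨y, hy, k, rfl⟩ := hg x
  obtain ⟨v, hv⟩ := NN_le he hy
  exact ⟨v, k, by rw [pr_mul, hv, pr_zpow]⟩

/-- a homomorphism to the reals which is continuous at one and trivial on a cocompact subgroup
is trivial -/
theorem hom_zero (Γ : Subgroup G) [CompactSpace (G ⧸ Γ)] (f : G → ℝ)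
    (hf : ∀ x y, f (x * y) = f x + f y) (hΓ : ∀ γ ∈ Γ, f γ = 0)
    (hc : Tendsto f (𝓝 1) (𝓝 0)) (x : G) : f x = 0 := by
  have hcont : Continuous f := by
    rw [continuous_iff_continuousAt]
    intro y
    have h1 : f = fun z => f (z * y⁻¹) + f y := by
      funext z
      rw [← hf]
      group
    have h2 : Tendsto (fun z => z * y⁻¹) (𝓝 y) (𝓝 1) := by
      have h3 : Continuous fun z : G => z * y⁻¹ := by fun_prop
      have h4 := h3.tendsto y
      rwa [mul_inv_cancel] at h4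
    have h5 := (hc.comp h2).add_const (f y)
    rw [zero_add] at h5
    refine h5.congr fun z => ?_
    exact (congrFun h1 z).symm
  let F : G ⧸ Γ → ℝ := Quotient.lift f (by
    intro a b hab
    have h1 : a⁻¹ * b ∈ Γ := QuotientGroup.leftRel_apply.1 hab
    have h2 : f b = f a + f (a⁻¹ * b) := by rw [← hf]; group
    rw [h2, hΓ _ h1, add_zero])
  have hF : Continuous F := continuous_quot_lift _ hcont
  obtain ⟨C, hC⟩ := (isCompact_range hF.norm).bddAbove
  have hb : ∀ z, |f z| ≤ C := fun z => hC ⟨QuotientGroup.mk z, rfl⟩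
  have hpow : ∀ (z : G) (m : ℕ), f (z ^ m) = m * f z := by
    intro z m
    induction m with
    | zero =>
      have := hf 1 1
      rw [mul_one] at this
      simp only [pow_zero, Nat.cast_zero, zero_mul]
      linarith
    | succ m ih =>
      rw [pow_succ, hf, ih]
      push_cast
      ring
  by_contra hx
  have hx' : 0 < |f x| := abs_pos.2 hx
  obtain ⟨m, hm⟩ := exists_nat_gt (C / |f x|)
  have h1 := hb (x ^ m)
  rw [hpow, abs_mul, Nat.abs_cast] at h1
  rw [div_lt_iff₀ hx'] at hm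
  linarith

theorem c1 : S_C1 := by
  intro G _ _ _ n e he Γ hcomp g hg
  have hrep := rep he hg
  let s : Set ((Fin n → ℝ) × ℝ) :=
    {z | ∃ (v : Fin n → ℝ) (m : ℤ), z = (v, (m : ℝ)) ∧ ∃ γ ∈ Γ, pr γ = pr (e v) * pr g ^ m}
  have hspan : Submodule.span ℝ s = ⊤ := by
    by_contra hne
    obtain ⟨ℓ, hℓ0, hℓ⟩ := Submodule.exists_le_ker_of_lt_top _ (lt_top_iff_ne_top.2 hne)
    have hs : ∀ (v : Fin n → ℝ) (m : ℤ), (∃ γ ∈ Γ, pr γ = pr (e v) * pr g ^ m) →
        ℓ (v, (m : ℝ)) = 0 := fun v m h =>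
      LinearMap.mem_ker.1 (hℓ (Submodule.subset_span ⟨v, m, rfl, h⟩))
    choose V K hVK using hrep
    have key : ∀ (x : G) (v : Fin n → ℝ) (m : ℤ), pr x = pr (e v) * pr g ^ m →
        ℓ (V x, (K x : ℝ)) = ℓ (v, (m : ℝ)) := by
      intro x v m h
      have h1 : ℓ (V x - v, ((K x - m : ℤ) : ℝ)) = 0 := by
        refine hs _ _ ⟨1, one_mem _, ?_⟩
        have h2 : pr (e (V x)) * pr g ^ K x = pr (e v) * pr g ^ m := by rw [← hVK x, h]
        rw [pr_e_sub he, zpow_sub, pr_one, ← div_eq_mul_inv, div_mul_div_comm, h2, div_self']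
      have h2 : (V x - v, ((K x - m : ℤ) : ℝ)) = (V x, (K x : ℝ)) - (v, (m : ℝ)) := by
        push_cast
        rfl
      rw [h2, map_sub, sub_eq_zero] at h1
      exact h1
    have hf0 : ∀ x, ℓ (V x, (K x : ℝ)) = 0 := by
      refine hom_zero Γ _ (fun x y => ?_) (fun γ hγ => ?_) ?_
      · rw [key (x * y) (V x + V y) (K x + K y), ← map_add]
        · congr 1
          push_cast
          rfl
        · rw [pr_mul, hVK x, hVK y, pr_add he, zpow_add]
          exact mul_mul_mul_comm _ _ _ _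
      · exact hs _ _ ⟨γ, hγ, hVK γ⟩
      · rw [Metric.tendsto_nhds]
        intro ε hε
        have h1 : Tendsto (fun v : Fin n → ℝ => ℓ (v, (0 : ℝ))) (𝓝 0) (𝓝 0) := by
          have h2 : Continuous fun v : Fin n → ℝ => ℓ (v, (0 : ℝ)) :=
            (LinearMap.continuous_of_finiteDimensional ℓ).comp (by fun_prop)
          have h3 := h2.tendsto 0
          have h4 : ℓ ((0 : Fin n → ℝ), (0 : ℝ)) = 0 := map_zero ℓ
          rwa [h4] at h3
        have h2 := he.nhds _ (Metric.tendsto_nhds.1 h1 ε hε)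
        refine mem_of_superset h2 ?_
        rintro _ ⟨v, hv, rfl⟩
        have h3 : ℓ (V (e v), (K (e v) : ℝ)) = ℓ (v, (0 : ℝ)) := by
          rw [key (e v) v 0 (by rw [zpow_zero, mul_one])]
          simp
        show dist (ℓ (V (e v), (K (e v) : ℝ))) 0 < ε
        rw [h3]
        exact hv
    apply hℓ0
    have h1 : ∀ v : Fin n → ℝ, ℓ (v, (0 : ℝ)) = 0 := by
      intro v
      have h2 := hf0 (e v)
      rw [key (e v) v 0 (by rw [zpow_zero, mul_one])] at h2
      simpa using h2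
    have h2 : ℓ (0, (1 : ℝ)) = 0 := by
      have h3 := hf0 g
      rw [key g 0 1 (by rw [zpow_one, pr_e_zero he, one_mul])] at h3
      simpa using h3
    refine LinearMap.ext fun z => ?_
    obtain ⟨v, r⟩ := z
    have h3 : (v, r) = (v, (0 : ℝ)) + r • ((0 : Fin n → ℝ), (1 : ℝ)) := by
      simp
    rw [h3, map_add, map_smul, h1, h2]
    simp
  obtain ⟨f, hf, hf2, -⟩ := Submodule.exists_fun_fin_finrank_span_eq ℝ s
  have hfr : Module.finrank ℝ (Submodule.span ℝ s) = n + 1 := by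
    rw [hspan, finrank_top]
    simp
  let ι : Fin (n + 1) ≃ Fin (Module.finrank ℝ (Submodule.span ℝ s)) := finCongr hfr.symm
  choose w m hwm hγ using fun k => hf (ι k)
  refine ⟨w, m, fun k => ?_, fun v r => ?_, fun v v' => ?_, fun x => ?_⟩
  · obtain ⟨γ, h1, h2⟩ := hγ k
    refine ⟨γ, h1, ?_⟩
    rw [← pr_eq, pr_mul, pr_zpow, h2]
  · have h1 : ((v, r) : (Fin n → ℝ) × ℝ) ∈ Submodule.span ℝ (Set.range f) := by
      rw [hf2, hspan]
      trivial
    rw [Submodule.mem_span_range_iff_exists_fun] at h1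
    obtain ⟨c, hc⟩ := h1
    refine ⟨fun k => c (ι k), ?_⟩
    have h2 : ∑ k, c (ι k) • f (ι k) = (v, r) := by
      rw [← hc]
      exact Equiv.sum_comp ι fun i => c i • f i
    simp only [hwm] at h2
    constructor
    · have h3 := congrArg Prod.fst h2
      rw [Prod.fst_sum] at h3
      exact h3.symm
    · have h3 := congrArg Prod.snd h2
      rw [Prod.snd_sum] at h3
      exact h3.symm
  · rw [← pr_eq, pr_add he, pr_mul]
  · obtain ⟨v, k, hk⟩ := hrep x
    refine ⟨v, k, ?_⟩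
    rw [← pr_eq, pr_mul, pr_zpow, hk]

end

end Pool.Agent.Q182.NP
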