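import Pool.Agent.Q284.NP.Stm2
import Pool.Agent.Q284.PAC.Gal

set_option autoImplicit false

/-!
Project NP (helper284), job GAS: Artin-Schreier characters.
-/

namespace Pool.Agent.Q182.NP

open Polynomial Pool.Agent.Q284.NP

/-- the test polynomials -/
noncomputable def gp (p : ℕ) {N : ℕ} (c : Fin N → ZMod p) : (ZMod p)[X] :=
  ∑ i, C (c i) * X ^ (p * (i : ℕ) + 1)

theorem gp_sub (p : ℕ) {N : ℕ} (c c' : Fin N → ZMod p) : gp p c - gp p c' = gp p (c - c') := by
  unfold gp
  rw [← Finset.sum_sub_distrib]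
  refine Finset.sum_congr rfl fun i _ => ?_
  rw [Pi.sub_apply, C_sub, sub_mul]

theorem gp_coeff (p : ℕ) {N : ℕ} (c : Fin N → ZMod p) (n : ℕ) :
    (gp p c).coeff n = ∑ i : Fin N, if n = p * (i : ℕ) + 1 then c i else 0 := by
  unfold gp
  rw [finsetSum_coeff]
  refine Finset.sum_congr rfl fun i _ => ?_
  rw [coeff_C_mul_X_pow]

theorem gp_ne (p : ℕ) (hp : 0 < p) {N : ℕ} {c : Fin N → ZMod p} (h : c ≠ 0) : gp p c ≠ 0 := by
  classical
  intro h0
  apply h
  funext i
  have h1 : (gp p c).coeff (p * (i : ℕ) + 1) = 0 := by rw [h0, coeff_zero]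
  rw [gp_coeff, Finset.sum_eq_single i] at h1
  · rw [if_pos rfl] at h1
    exact h1
  · intro j _ hj
    rw [if_neg]
    intro h2
    apply hj
    have h3 : p * (i : ℕ) = p * (j : ℕ) := by omega
    exact (Fin.ext (Nat.eq_of_mul_eq_mul_left hp h3)).symm
  · intro h2
    exact absurd (Finset.mem_univ i) h2

theorem gp_deg (p : ℕ) {N : ℕ} {c : Fin N → ZMod p} (h : gp p c ≠ 0) :
    ∃ i : ℕ, (gp p c).natDegree = p * i + 1 := by
  classical
  by_contra hcon
  push Not at hcon
  apply h
  rw [← leadingCoeff_eq_zero, leadingCoeff, gp_coeff]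
  exact Finset.sum_eq_zero fun i _ => if_neg (hcon i)

theorem no_sol (p : ℕ) [hp : Fact p.Prime] {N : ℕ} {c : Fin N → ZMod p} (h : c ≠ 0) (q : (ZMod p)[X]) :
    q ^ p - q ≠ gp p c := by
  intro hq
  have hp2 := hp.out.two_le
  have h0 := gp_ne p hp.out.pos h
  obtain ⟨i, hi⟩ := gp_deg p h0
  rw [← hq] at hi
  by_cases hd : q.natDegree = 0
  · have h1 : (q ^ p - q).natDegree ≤ 0 := by
      refine (natDegree_sub_le _ _).trans ?_
      rw [natDegree_pow, hd]
      simp
    omega
  · have h1 : q.natDegree < (q ^ p).natDegree := by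
      rw [natDegree_pow]
      have : 0 < q.natDegree := Nat.pos_of_ne_zero hd
      nlinarith
    rw [natDegree_sub_eq_left_of_natDegree_lt h1, natDegree_pow] at hi
    have h2 : p ∣ 1 := (Nat.dvd_add_right (Dvd.intro i rfl)).1 (Dvd.intro q.natDegree hi)
    have := Nat.le_of_dvd one_pos h2
    omega

theorem exists_as (p : ℕ) [hp : Fact p.Prime] (L : Type) [Field L] [CharP L p] [IsSepClosed L] (a : L) :
    ∃ z : L, z ^ p - z = a := by
  have hp2 := hp.out.two_le
  have hdeg : (X ^ p - X - C a : L[X]).natDegree = p := by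
    have h1 : (X ^ p - X - C a : L[X]) = X ^ p - (X + C a) := by ring
    rw [h1, natDegree_sub_eq_left_of_natDegree_lt, natDegree_X_pow]
    rw [natDegree_X_pow, natDegree_X_add_C]
    omega
  have hder : derivative (X ^ p - X - C a : L[X]) = -1 := by
    rw [derivative_sub, derivative_sub, derivative_C, derivative_X, derivative_X_pow,
      CharP.cast_eq_zero L p, C_0]
    ring
  have hsep : (X ^ p - X - C a : L[X]).Separable := by
    rw [separable_def, hder]
    exact isCoprime_one_right.neg_right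
  obtain ⟨z, hz⟩ := IsSepClosed.exists_root (X ^ p - X - C a : L[X]) (by
    intro h
    have := natDegree_eq_of_degree_eq_some (n := 0) h
    omega) hsep
  refine ⟨z, ?_⟩
  rw [IsRoot.def, eval_sub, eval_sub, eval_pow, eval_X, eval_C] at hz
  exact sub_eq_zero.1 hz

theorem gas : S_GAS := by
  classical
  intro p hp K _ φ hφ S hS
  have hp2 := hp.out.two_le
  have hK : CharP K p := charP_of_injective_ringHom (f := φ.comp C) (RingHom.injective _) p
  have hL : CharP (SeparableClosure K) p :=
    charP_of_injective_ringHom (algebraMap K (SeparableClosure K)).injective p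
  have hz : ∀ c : Fin (S.card + 1) → ZMod p, ∃ z : SeparableClosure K,
      z ^ p - z = algebraMap K (SeparableClosure K) (φ (gp p c)) := fun c => exists_as p _ _
  choose z hz using hz
  have hs : ∀ (c : Fin (S.card + 1) → ZMod p) (σ : SeparableClosure K ≃ₐ[K] SeparableClosure K),
      ∃ t : ZMod p, ZMod.castHom (dvd_refl p) (SeparableClosure K) t = σ (z c) - z c := by
    intro c σ
    have h1 : (σ (z c) - z c) ^ p = σ (z c) - z c := by
      rw [sub_pow_char, ← map_pow]
      have h2 : z c ^ p = z c + algebraMap K (SeparableClosure K) (φ (gp p c)) := by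
        rw [← hz c]; ring
      rw [h2, map_add, AlgEquiv.commutes]
      ring
    obtain ⟨n, hn⟩ := (mem_bot_iff_intCast p (SeparableClosure K)).1
      ((Subfield.mem_bot_iff_pow_eq_self (SeparableClosure K) p).2 h1)
    refine ⟨(n : ZMod p), ?_⟩
    rw [map_intCast, hn]
  choose t ht using hs
  let χ : (Fin (S.card + 1) → ZMod p) → (S → ZMod p) := fun c σ => t c σ.1
  have : NeZero p := ⟨hp.out.ne_zero⟩
  have hcard : Fintype.card (S → ZMod p) < Fintype.card (Fin (S.card + 1) → ZMod p) := by
    rw [Fintype.card_fun, Fintype.card_fun, ZMod.card, Fintype.card_fin, Fintype.card_coe]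
    exact Nat.pow_lt_pow_right (by omega) (Nat.lt_succ_self _)
  obtain ⟨c, c', hc, hχ⟩ := Fintype.exists_ne_map_eq_of_card_lt χ hcard
  have hfix : ∀ σ ∈ (S : Set (SeparableClosure K ≃ₐ[K] SeparableClosure K)), σ (z c - z c') = z c - z c' := by
    intro σ hσ
    have h1 : t c σ = t c' σ := congrFun hχ ⟨σ, hσ⟩
    have h2 : σ (z c) - z c = σ (z c') - z c' := by rw [← ht, ← ht, h1]
    rw [map_sub]
    linear_combination h2
  obtain ⟨d, hd⟩ := Pool.Agent.Q284.PAC.fixed_of_dense K _ hS _ hfix
  have h3 : d ^ p - d = φ (gp p (c - c')) := by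
    apply (algebraMap K (SeparableClosure K)).injective
    rw [← gp_sub, map_sub, map_sub, map_sub, map_pow, hd, ← hz, ← hz, sub_pow_char]
    ring
  obtain ⟨q, hq⟩ := hφ _ d h3
  exact no_sol p (sub_ne_zero.2 hc) q hq

end Pool.Agent.Q182.NP
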